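import Pool.Agent.Lib.MP_6fae94_lc.Final

set_option autoImplicit false

namespace Pool.Agent.Results.MP_6fae94_lc.TwoHeads

/-- The case `k = 2`: there are a finite alphabet and a language accepted by a two-way
nondeterministic two-head finite automaton but by no two-way deterministic two-head finite
automaton. -/
theorem result :
      ∃ (A : Type) (_ : Fintype A) (L : Set (List A)),
        (∃ (Q : Type) (_ : Fintype Q) (q0 : Q) (F : Set Q)
            (δ : Q → (Fin 2 → Bool ⊕ A) → Set (Q × (Fin 2 → Fin 3))),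
            ∀ w : List A, w ∈ L ↔
              ∃ q ∈ F, ∃ p : Fin 2 → ℕ,
                Relation.ReflTransGen
                  (fun c c' : Q × (Fin 2 → ℕ) =>
                    ∃ d : Fin 2 → Fin 3,
                      (c'.1, d) ∈ δ c.1 (fun i =>
                        if c.2 i = 0 then (Sum.inl false : Bool ⊕ A)
                        else (w[c.2 i - 1]?).elim (Sum.inl true) Sum.inr) ∧
                      ∀ i, c'.2 i + 1 = c.2 i + (d i).val ∧ c'.2 i ≤ w.length + 1)
                  (q0, fun _ => 0) (q, p)) ∧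
        ¬ (∃ (Q : Type) (_ : Fintype Q) (q0 : Q) (F : Set Q)
            (δ : Q → (Fin 2 → Bool ⊕ A) → Set (Q × (Fin 2 → Fin 3))),
            (∀ q s, (δ q s).Subsingleton) ∧
            ∀ w : List A, w ∈ L ↔
              ∃ q ∈ F, ∃ p : Fin 2 → ℕ,
                Relation.ReflTransGen
                  (fun c c' : Q × (Fin 2 → ℕ) =>
                    ∃ d : Fin 2 → Fin 3,
                      (c'.1, d) ∈ δ c.1 (fun i =>
                        if c.2 i = 0 then (Sum.inl false : Bool ⊕ A)
                        else (w[c.2 i - 1]?).elim (Sum.inl true) Sum.inr) ∧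
                      ∀ i, c'.2 i + 1 = c.2 i + (d i).val ∧ c'.2 i ≤ w.length + 1)
                  (q0, fun _ => 0) (q, p)) := by
  refine ⟨Pool.Agent.Lib.MP6fae94.Ltr, inferInstance,
    {u | Pool.Agent.Lib.MP6fae94.AccN Pool.Agent.Lib.MP6fae94.del
      Pool.Agent.Lib.MP6fae94.St.I0 {Pool.Agent.Lib.MP6fae94.St.acc} u},
    ⟨Pool.Agent.Lib.MP6fae94.St, inferInstance, Pool.Agent.Lib.MP6fae94.St.I0,
      {Pool.Agent.Lib.MP6fae94.St.acc}, Pool.Agent.Lib.MP6fae94.del, fun w => Iff.rfl⟩, ?_⟩
  rintro ⟨Q, hQ, q0, F, δ, hδ, hacc⟩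
  exact Pool.Agent.Lib.MP6fae94.two_heads ⟨Q, hQ, q0, F, δ, hδ, hacc⟩

end Pool.Agent.Results.MP_6fae94_lc.TwoHeads
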